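import Mathlib

/-! Atomic diagrams of numbered Boolean algebras, Turing jumps and low sets. -/

namespace Pool.Agent.P.MP_9f8894_lc.Hg

open Classical in
/-- The characteristic function of a set, as an oracle. -/
noncomputable def chi (A : Set ℕ) : ℕ →. ℕ := fun n => Part.some (if n ∈ A then 1 else 0)

/-- `W` is computably enumerable in `X`: the domain of a function that is recursive in `X`. -/
def CE (X W : Set ℕ) : Prop :=
  ∃ g : ℕ →. ℕ, TuringReducible g (chi X) ∧ ∀ n, n ∈ W ↔ (g n).Dom

/-- `J` is a Turing jump of `X`: it is c.e. in `X` and computes every set that is c.e. in `X`. -/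
def IsJump (X J : Set ℕ) : Prop :=
  CE X J ∧ ∀ W, CE X W → TuringReducible (chi W) (chi J)

/-- The `n`-th jump of `D` is Turing equivalent to the `n`-th jump of the empty set. -/
def Low (n : ℕ) (D : Set ℕ) : Prop :=
  ∃ X K : ℕ → Set ℕ, X 0 = D ∧ K 0 = ∅ ∧ (∀ k, IsJump (X k) (X (k + 1))) ∧
    (∀ k, IsJump (K k) (K (k + 1))) ∧ TuringEquivalent (chi (X n)) (chi (K n))

/-- Terms of the language of Boolean algebras with natural numbers as parameters. -/
inductive Tm : Type
  | bot : Tm
  | top : Tm
  | par (k : ℕ) : Tm
  | cpl (t : Tm) : Tm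
  | sup (s t : Tm) : Tm
  | inf (s t : Tm) : Tm

/-- The Goedel number of a term. -/
def Tm.code : Tm → ℕ
  | bot => 0
  | top => 1
  | par k => 4 * k + 2
  | cpl t => 4 * t.code + 3
  | sup s t => 4 * Nat.pair s.code t.code + 4
  | inf s t => 4 * Nat.pair s.code t.code + 5

/-- The value of a term when the parameter `k` names the element `f k`; it is `none` as soon as
one parameter of the term names nothing. -/
def Tm.val {B : Type} [BooleanAlgebra B] (f : ℕ → Option B) : Tm → Option B
  | bot => some ⊥
  | top => some ⊤
  | par k => f k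
  | cpl t => (t.val f).map Compl.compl
  | sup s t => Option.map₂ (fun x y => x ⊔ y) (s.val f) (t.val f)
  | inf s t => Option.map₂ (fun x y => x ⊓ y) (s.val f) (t.val f)

/-- The atomic diagram: even numbers code the true equations, odd numbers the true inequations
between terms whose parameters name elements. -/
def diag {B : Type} [BooleanAlgebra B] (f : ℕ → Option B) : Set ℕ :=
  {n | ∃ (s t : Tm) (x y : B), s.val f = some x ∧ t.val f = some y ∧
    ((n = 2 * Nat.pair s.code t.code ∧ x = y) ∨ (n = 2 * Nat.pair s.code t.code + 1 ∧ x ≠ y))}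

end Pool.Agent.P.MP_9f8894_lc.Hg
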