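import Mathlib
import Pool.Agent.P.MP_9f8894_lc.Hg.Defs
import Pool.Agent.P.MP_9f8894_lc.Jump

/-! The atomic diagram is computable from the operations; low sets. -/

set_option autoImplicit false
open scoped Classical

namespace Pool.Agent.P.MP_9f8894_lc.Hg

theorem code_surj (n : ℕ) : ∃ t : Tm, t.code = n := by
  induction n using Nat.strong_induction_on with
  | _ n ih =>
    have hl := Nat.unpair_left_le ((n - 2) / 4)
    have hr := Nat.unpair_right_le ((n - 2) / 4)
    by_cases h0 : n = 0
    · exact ⟨.bot, h0.symm⟩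
    by_cases h1 : n = 1
    · exact ⟨.top, h1.symm⟩
    obtain ⟨s, hs⟩ := ih ((n - 2) / 4).unpair.1 (by omega)
    obtain ⟨t, ht⟩ := ih ((n - 2) / 4).unpair.2 (by omega)
    obtain ⟨u, hu⟩ := ih ((n - 2) / 4) (by omega)
    by_cases h2 : n % 4 = 2
    · exact ⟨.par ((n - 2) / 4), by simp only [Tm.code]; omega⟩
    by_cases h3 : n % 4 = 3
    · exact ⟨.cpl u, by simp only [Tm.code, hu]; omega⟩
    by_cases h4 : n % 4 = 0
    · exact ⟨.sup s t, by simp only [Tm.code, hs, ht, Nat.pair_unpair]; omega⟩
    · exact ⟨.inf s t, by simp only [Tm.code, hs, ht, Nat.pair_unpair]; omega⟩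

theorem code_inj (s t : Tm) (h : s.code = t.code) : s = t := by
  induction s generalizing t with
  | bot => cases t <;> simp only [Tm.code] at h <;> first | rfl | omega
  | top => cases t <;> simp only [Tm.code] at h <;> first | rfl | omega
  | par k => cases t <;> simp only [Tm.code] at h <;> first | omega | (congr 1; omega)
  | cpl u ih =>
    cases t <;> simp only [Tm.code] at h <;> first | omega | (congr 1; exact ih _ (by omega))
  | sup u v ih ih' =>
    cases t with
    | sup a b =>
      simp only [Tm.code] at h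
      have := Nat.pair_eq_pair.1 (show Nat.pair u.code v.code = Nat.pair a.code b.code by omega)
      rw [ih _ this.1, ih' _ this.2]
    | _ => simp only [Tm.code] at h; omega
  | inf u v ih ih' =>
    cases t with
    | inf a b =>
      simp only [Tm.code] at h
      have := Nat.pair_eq_pair.1 (show Nat.pair u.code v.code = Nat.pair a.code b.code by omega)
      rw [ih _ this.1, ih' _ this.2]
    | _ => simp only [Tm.code] at h; omega

variable {B : Type} [BooleanAlgebra B]

theorem odd_mem (f : ℕ → Option B) (s t : Tm) :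
    2 * Nat.pair s.code t.code + 1 ∈ diag f ↔
      ∃ x y, s.val f = some x ∧ t.val f = some y ∧ x ≠ y := by
  constructor
  · rintro ⟨s', t', x, y, hs, ht, ⟨h, -⟩ | ⟨h, hne⟩⟩
    · omega
    · have := Nat.pair_eq_pair.1
        (show Nat.pair s.code t.code = Nat.pair s'.code t'.code by omega)
      rw [code_inj _ _ this.1, code_inj _ _ this.2]
      exact ⟨x, y, hs, ht, hne⟩
  · rintro ⟨x, y, hs, ht, hne⟩
    exact ⟨s, t, x, y, hs, ht, .inr ⟨rfl, hne⟩⟩

theorem even_mem (f : ℕ → Option B) (s t : Tm) :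
    2 * Nat.pair s.code t.code ∈ diag f ↔
      ∃ x y, s.val f = some x ∧ t.val f = some y ∧ x = y := by
  constructor
  · rintro ⟨s', t', x, y, hs, ht, ⟨h, he⟩ | ⟨h, -⟩⟩
    · have := Nat.pair_eq_pair.1
        (show Nat.pair s.code t.code = Nat.pair s'.code t'.code by omega)
      rw [code_inj _ _ this.1, code_inj _ _ this.2]
      exact ⟨x, y, hs, ht, he⟩
    · omega
  · rintro ⟨x, y, hs, ht, he⟩
    exact ⟨s, t, x, y, hs, ht, .inl ⟨rfl, he⟩⟩

/-- One step of the evaluation of codes. -/
def stp (z o : ℕ) (c : ℕ → ℕ) (u v : ℕ → ℕ → ℕ) (l : List ℕ) (n : ℕ) : ℕ :=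
  bif decide (n = 0) then z else bif decide (n = 1) then o
  else bif decide (n % 4 = 2) then (n - 2) / 4
  else bif decide (n % 4 = 3) then c (l.getD ((n - 2) / 4) 0)
  else bif decide (n % 4 = 0) then
    u (l.getD ((n - 2) / 4).unpair.1 0) (l.getD ((n - 2) / 4).unpair.2 0)
  else v (l.getD ((n - 2) / 4).unpair.1 0) (l.getD ((n - 2) / 4).unpair.2 0)

theorem ci_stp {O : Set (ℕ →. ℕ)} (z o : ℕ) {c : ℕ → ℕ} {u v : ℕ → ℕ → ℕ} (hc : ComputableIn O c)
    (hu : ComputableIn₂ O u) (hv : ComputableIn₂ O v) : ComputableIn₂ O (stp z o c u v) := by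
  have hm : Primrec fun p : List ℕ × ℕ => (p.2 - 2) / 4 :=
    Primrec.nat_div.comp (Primrec.nat_sub.comp Primrec.snd (Primrec.const 2)) (Primrec.const 4)
  have hg : ∀ {k : List ℕ × ℕ → ℕ}, Primrec k →
      Primrec fun p : List ℕ × ℕ => p.1.getD (k p) 0 := fun hk =>
    (Primrec.list_getD 0).comp Primrec.fst hk
  have he : ∀ i, Primrec fun p : List ℕ × ℕ => decide (p.2 = i) := fun i =>
    Primrec.eq.decide.comp Primrec.snd (Primrec.const i)
  have hr : ∀ i, Primrec fun p : List ℕ × ℕ => decide (p.2 % 4 = i) := fun i =>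
    Primrec.eq.decide.comp (Primrec.nat_mod.comp Primrec.snd (Primrec.const 4)) (Primrec.const i)
  have hp := ((hg (Primrec.fst.comp (Primrec.unpair.comp hm))).pair
    (hg (Primrec.snd.comp (Primrec.unpair.comp hm)))).computableIn (O := O)
  have h := ci_cond (he 0).computableIn (ComputableIn.const z)
    (ci_cond (he 1).computableIn (ComputableIn.const o)
    (ci_cond (hr 2).computableIn hm.computableIn
    (ci_cond (hr 3).computableIn (ci_comp hc (hg hm).computableIn)
    (ci_cond (hr 0).computableIn (ci_comp hu hp) (ci_comp hv hp)))))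
  exact ci_of_eq h fun _ => rfl

theorem ci_cov {O : Set (ℕ →. ℕ)} {g : List ℕ → ℕ → ℕ} (hg : ComputableIn₂ O g) {w : ℕ → ℕ}
    (h : ∀ n, w n = g ((List.range n).map w) n) : ComputableIn O w := by
  have h0 := ci_comp (Primrec.list_concat (α := ℕ)).computableIn
    (ci_pair (Primrec.snd.comp (Primrec.snd (α := ℕ) (β := ℕ × List ℕ))).computableIn
      (ci_comp hg ((Primrec.snd.comp Primrec.snd).pair
        (Primrec.fst.comp Primrec.snd)).computableIn))
  have h1 := ci_nat_rec (O := O) (f := fun s : ℕ => s) (g := fun _ => ([] : List ℕ))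
    (h := fun _ p => p.2 ++ [g p.2 p.1]) ComputableIn.id (ComputableIn.const _)
    (ci_of_eq h0 fun _ => rfl)
  have h2 : ComputableIn O fun n => (List.range n).map w := by
    refine ci_of_eq h1 fun s => ?_
    induction s with
    | zero => rfl
    | succ s ih =>
      simp only at ih ⊢
      rw [ih, List.range_succ, List.map_append, List.map_singleton, ← h]
  exact ci_of_eq (ci_comp hg (ci_pair h2 ComputableIn.id)) fun n => (h n).symm

theorem val_some (e : ℕ ≃ B) (t : Tm) : ∃ x, t.val (fun k => some (e k)) = some x := by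
  induction t with
  | bot => exact ⟨_, rfl⟩
  | top => exact ⟨_, rfl⟩
  | par k => exact ⟨_, rfl⟩
  | cpl t ih => obtain ⟨x, hx⟩ := ih; exact ⟨xᶜ, by simp [Tm.val, hx]⟩
  | sup s t ih ih' =>
    obtain ⟨x, hx⟩ := ih; obtain ⟨y, hy⟩ := ih'; exact ⟨x ⊔ y, by simp [Tm.val, hx, hy]⟩
  | inf s t ih ih' =>
    obtain ⟨x, hx⟩ := ih; obtain ⟨y, hy⟩ := ih'; exact ⟨x ⊓ y, by simp [Tm.val, hx, hy]⟩

theorem ci_diag {O : Set (ℕ →. ℕ)} (e : ℕ ≃ B)
    (h1 : ComputableIn₂ O fun a b : ℕ => e.symm (e a ⊔ e b))
    (h2 : ComputableIn₂ O fun a b : ℕ => e.symm (e a ⊓ e b))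
    (h3 : ComputableIn O fun a : ℕ => e.symm (e a)ᶜ) :
    ComputableIn O fun n => decide (n ∈ diag fun k => some (e k)) := by
  choose d hd using code_surj
  choose ev hev using val_some e
  have hdc : ∀ t : Tm, d t.code = t := fun t => code_inj _ _ (hd _)
  let w : ℕ → ℕ := fun n => e.symm (ev (d n))
  have hw : ∀ t : Tm, t.val (fun k => some (e k)) = some (e (w t.code)) := fun t => by
    simp only [w, hdc, Equiv.apply_symm_apply, hev]
  have hw' : ∀ (t : Tm) (x : B), t.val (fun k => some (e k)) = some x → w t.code = e.symm x :=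
    fun t x hx => by
      rw [hw] at hx
      rw [← Option.some.inj hx, Equiv.symm_apply_apply]
  have hget : ∀ n k, k < n → ((List.range n).map w).getD k 0 = w k := fun n k hk => by
    simp [List.getD, hk]
  have hc : ComputableIn O w := by
    refine ci_cov (ci_stp (e.symm ⊥) (e.symm ⊤) h3 h1 h2) fun n => ?_
    obtain ⟨t, rfl⟩ := code_surj n
    cases t with
    | bot => exact hw' .bot _ rfl
    | top => exact hw' .top _ rfl
    | par k =>
      rw [hw' (.par k) _ rfl]
      have a : (4 * k + 2) % 4 = 2 := by omega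
      simp [stp, Tm.code, a]
    | cpl t =>
      rw [hw' (.cpl t) (e (w t.code))ᶜ (by simp [Tm.val, hw])]
      have a : (4 * t.code + 3) % 4 = 3 := by omega
      have b : (4 * t.code + 3 - 2) / 4 = t.code := by omega
      simp only [stp, Tm.code, a, b]
      rw [hget _ _ (by omega)]
      simp
    | sup s t =>
      rw [hw' (.sup s t) (e (w s.code) ⊔ e (w t.code)) (by simp [Tm.val, hw])]
      have a : (4 * Nat.pair s.code t.code + 4) % 4 = 0 := by omega
      have b : (4 * Nat.pair s.code t.code + 4 - 2) / 4 = Nat.pair s.code t.code := by omega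
      have c1 := Nat.left_le_pair s.code t.code
      have c2 := Nat.right_le_pair s.code t.code
      simp only [stp, Tm.code, a, b, Nat.unpair_pair]
      rw [hget _ s.code (by omega), hget _ t.code (by omega)]
      simp
    | inf s t =>
      rw [hw' (.inf s t) (e (w s.code) ⊓ e (w t.code)) (by simp [Tm.val, hw])]
      have a : (4 * Nat.pair s.code t.code + 5) % 4 = 1 := by omega
      have b : (4 * Nat.pair s.code t.code + 5 - 2) / 4 = Nat.pair s.code t.code := by omega
      have c1 := Nat.left_le_pair s.code t.code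
      have c2 := Nat.right_le_pair s.code t.code
      simp only [stp, Tm.code, a, b, Nat.unpair_pair]
      rw [hget _ s.code (by omega), hget _ t.code (by omega)]
      simp
  have hh : Primrec fun n : ℕ => (n / 2).unpair :=
    Primrec.unpair.comp (Primrec.nat_div.comp Primrec.id (Primrec.const 2))
  have hq := ci_comp (Primrec.eq (α := ℕ)).decide.computableIn
    (ci_pair (ci_comp hc (Primrec.fst.comp hh).computableIn)
      (ci_comp hc (Primrec.snd.comp hh).computableIn))
  have hpar : Primrec fun n : ℕ => decide (n % 2 = 0) :=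
    Primrec.eq.decide.comp (Primrec.nat_mod.comp Primrec.id (Primrec.const 2)) (Primrec.const 0)
  refine ci_of_eq (ci_cond hpar.computableIn hq (ci_comp Primrec.not.computableIn hq)) fun n => ?_
  obtain ⟨s, hs⟩ := code_surj (n / 2).unpair.1
  obtain ⟨t, ht⟩ := code_surj (n / 2).unpair.2
  have hp : Nat.pair s.code t.code = n / 2 := by rw [hs, ht, Nat.pair_unpair]
  rw [Bool.eq_iff_iff, decide_eq_true_eq]
  by_cases hn : n % 2 = 0
  · have e1 : n = 2 * Nat.pair s.code t.code := by omega
    conv_rhs => rw [e1, even_mem]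
    simp [hn, ← hs, ← ht, hw, eq_comm (a := w t.code)]
  · have e1 : n = 2 * Nat.pair s.code t.code + 1 := by omega
    conv_rhs => rw [e1, odd_mem]
    simp [hn, ← hs, ← ht, hw]

theorem chi_eq (X : ℕ → Bool) : chi {n | X n = true} = MP_ef7593_lc.chi X := by
  funext n
  simp [chi, MP_ef7593_lc.chi]

theorem isJump_J (X : ℕ → Bool) : IsJump {n | X n = true} {n | J X n = true} := by
  obtain ⟨⟨g, hg, h⟩, h2⟩ := MP_ef7593_lc.isJump_J X
  refine ⟨⟨g, by rwa [chi_eq], h⟩, fun W ⟨g, hg, h⟩ => ?_⟩
  rw [chi_eq] at hg ⊢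
  have e : W = {n | decide (n ∈ W) = true} := by simp
  rw [e, chi_eq]
  exact h2 _ ⟨g, hg, fun n => by simpa using h n⟩

theorem low_of {D : Set ℕ} {Y : ℕ → Bool} {m n : ℕ} (hD : CI Y fun k => decide (k ∈ D))
    (hY : CI (J^[m] fun _ => false) (J^[m] Y)) (h : m ≤ n) : Low n D := by
  obtain ⟨k, rfl⟩ := Nat.exists_eq_add_of_le' h
  refine ⟨fun i => {x | J^[i] (fun k => decide (k ∈ D)) x = true},
    fun i => {x | J^[i] (fun _ => false) x = true}, by simp, by simp, fun i => ?_, fun i => ?_,
    ?_, ?_⟩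
  · simp only [Function.iterate_succ_apply']; exact isJump_J _
  · simp only [Function.iterate_succ_apply']; exact isJump_J _
  · rw [chi_eq, chi_eq]
    refine tr_of_ci (ci_trans (Inv.iter_mono hD _) ?_)
    rw [Function.iterate_add_apply, Function.iterate_add_apply]
    exact Inv.iter_mono hY k
  · rw [chi_eq, chi_eq]
    exact tr_of_ci (Inv.iter_mono (ComputableIn.const false) _)

end Pool.Agent.P.MP_9f8894_lc.Hg
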