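import Mathlib
import Pool.Agent.P.MP_9f8894_lc.Pres

/-! If the nonempty cells of a numbering of the clopen sets can be enumerated, the clopen algebra
has a computable copy. -/

set_option autoImplicit false
open TopologicalSpace

namespace Pool.Agent.P.MP_9f8894_lc.Hg

variable {X : Type} [TopologicalSpace X] (μ : ℕ → Clopens X)

/-- The cell of a list of signs; the head of the list is the last sign. -/
def cell : List Bool → Clopens X
  | [] => ⊤
  | b :: σ => cell σ ⊓ bif b then μ σ.length else (μ σ.length)ᶜ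

open Classical in
/-- The signs of a point. -/
noncomputable def pth (x : X) : ℕ → List Bool
  | 0 => []
  | k + 1 => decide (x ∈ μ k) :: pth x k

theorem pth_length (x : X) (k : ℕ) : (pth μ x k).length = k := by
  induction k with
  | zero => rfl
  | succ k ih => simp [pth, ih]

theorem mem_cell (x : X) (σ : List Bool) : x ∈ cell μ σ ↔ σ = pth μ x σ.length := by
  induction σ with
  | nil => exact ⟨fun _ => rfl, fun _ => trivial⟩
  | cons b σ ih =>
    change x ∈ cell μ σ ∧ x ∈ (bif b then μ σ.length else (μ σ.length)ᶜ) ↔ _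
    rw [ih, List.length_cons, pth, List.cons.injEq, and_comm]
    refine and_congr_left fun _ => ?_
    cases b
    · change x ∉ μ σ.length ↔ _
      simp
    · simp

theorem pth_mem (x : X) (k : ℕ) : x ∈ cell μ (pth μ x k) := by
  rw [mem_cell, pth_length]

theorem pth_suffix (x : X) {k m : ℕ} (h : k ≤ m) : pth μ x k <:+ pth μ x m := by
  induction h with
  | refl => exact List.suffix_rfl
  | step _ ih => exact ih.trans (List.suffix_cons _ _)

theorem cell_down {x : X} {σ τ : List Bool} (h : σ <:+ τ) (hx : x ∈ cell μ τ) : x ∈ cell μ σ := by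
  obtain ⟨l, rfl⟩ := h
  induction l with
  | nil => exact hx
  | cons b l ih => exact ih hx.1

theorem cell_chain {x : X} {σ τ : List Bool} (h1 : x ∈ cell μ σ) (h2 : x ∈ cell μ τ)
    (h : σ.length ≤ τ.length) : σ <:+ τ := by
  rw [mem_cell] at h1 h2
  rw [h1, h2]
  exact pth_suffix μ x h

/-- Both children are nonempty. -/
def Br (σ : List Bool) : Prop := (∃ x, x ∈ cell μ (false :: σ)) ∧ ∃ x, x ∈ cell μ (true :: σ)

theorem exists_pt [CompactSpace X] {ρ : List Bool} (h : ∃ x, x ∈ cell μ ρ) :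
    ∃ x, x ∈ cell μ ρ ∧ ∀ τ, Br μ τ → x ∈ cell μ (false :: τ) → false :: τ <:+ ρ := by
  classical
  let nx : List Bool → List Bool := fun σ => decide (∃ x, x ∈ cell μ (true :: σ)) :: σ
  have hn : ∀ σ, (∃ x, x ∈ cell μ σ) → ∃ x, x ∈ cell μ (nx σ) := by
    rintro σ ⟨x, hx⟩
    by_cases h1 : ∃ x, x ∈ cell μ (true :: σ)
    · simp only [nx, h1, decide_true]
    · simp only [nx, h1, decide_false]
      exact ⟨x, hx, fun h2 => h1 ⟨x, hx, h2⟩⟩
  have hs : ∀ k, nx^[k + 1] ρ = nx (nx^[k] ρ) := fun k => Function.iterate_succ_apply' _ _ _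
  have hl : ∀ k, (nx^[k] ρ).length = ρ.length + k := fun k => by
    induction k with
    | zero => rfl
    | succ k ih => rw [hs]; simp only [nx, List.length_cons, ih]; omega
  have hne : ∀ k, ∃ x, x ∈ cell μ (nx^[k] ρ) := fun k => by
    induction k with
    | zero => exact h
    | succ k ih => rw [hs]; exact hn _ ih
  obtain ⟨x, hx⟩ := IsCompact.nonempty_iInter_of_sequence_nonempty_isCompact_isClosed
    (fun k => (cell μ (nx^[k] ρ) : Set X)) (fun k y hy => by rw [hs] at hy; exact hy.1) hne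
    (cell μ _).isClosed.isCompact fun k => (cell μ _).isClosed
  have hx' : ∀ k, x ∈ cell μ (nx^[k] ρ) := Set.mem_iInter.1 hx
  refine ⟨x, hx' 0, fun τ hτ h1 => ?_⟩
  by_cases h2 : τ.length + 1 ≤ ρ.length
  · exact cell_chain μ h1 (hx' 0) h2
  · exfalso
    obtain ⟨k, hk⟩ : ∃ k, τ.length = ρ.length + k := ⟨τ.length - ρ.length, by omega⟩
    have h0 : (false :: τ).length = (nx^[k + 1] ρ).length := by
      rw [hl, List.length_cons, hk, add_assoc]
    have h3 := (cell_chain μ h1 (hx' (k + 1)) h0.le).eq_of_length h0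
    rw [hs] at h3
    simp only [nx, List.cons.injEq] at h3
    obtain ⟨h4, h5⟩ := h3
    rw [← h5] at h4
    simp [hτ.2] at h4

theorem eq_of_cells [CompactSpace X] [T2Space X] [TotallyDisconnectedSpace X]
    (hμ : Function.Surjective μ) {x y : X}
    (h : ∀ τ, Br μ τ → (x ∈ cell μ (false :: τ) ↔ y ∈ cell μ (false :: τ))) : x = y := by
  have h1 : ∀ k, pth μ x k = pth μ y k := fun k => by
    induction k with
    | zero => rfl
    | succ k ih =>
      have hx := pth_mem μ x k
      have hy := pth_mem μ y k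
      rw [← ih] at hy
      have hl := pth_length μ x k
      have e : ∀ z, z ∈ cell μ (pth μ x k) →
          ((z ∈ cell μ (false :: pth μ x k) ↔ z ∉ μ k) ∧
            (z ∈ cell μ (true :: pth μ x k) ↔ z ∈ μ k)) := fun z hz => by
        simp only [cell, hl]
        exact ⟨⟨fun a => a.2, fun a => ⟨hz, a⟩⟩, ⟨fun a => a.2, fun a => ⟨hz, a⟩⟩⟩
      rw [pth, pth, ← ih]
      congr 1
      rw [decide_eq_decide]
      by_contra h2
      have hb : Br μ (pth μ x k) := by
        by_cases h3 : x ∈ μ k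
        · exact ⟨⟨y, (e y hy).1.2 fun h4 => h2 ⟨fun _ => h4, fun _ => h3⟩⟩, x, (e x hx).2.2 h3⟩
        · exact ⟨⟨x, (e x hx).1.2 h3⟩, y, (e y hy).2.2
            (by_contra fun h4 => h2 ⟨fun a => (h3 a).elim, fun a => (h4 a).elim⟩)⟩
      have h5 := h _ hb
      rw [(e x hx).1, (e y hy).1] at h5
      exact h2 (not_iff_not.1 h5)
  by_contra hne
  obtain ⟨V, hV, hx, hs⟩ := isTopologicalBasis_isClopen.mem_nhds_iff.1 (compl_singleton_mem_nhds hne)
  obtain ⟨k, hk⟩ := hμ ⟨V, hV⟩
  have h2 := h1 (k + 1)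
  rw [pth, pth, List.cons.injEq, decide_eq_decide, hk] at h2
  exact hs (h2.1.1 hx) rfl

theorem overt [CompactSpace X] [T2Space X] [TotallyDisconnectedSpace X] [Infinite (Clopens X)]
    (hμ : Function.Surjective μ) {a : List Bool → ℕ → Bool} (ha : Primrec₂ a)
    (h : ∀ σ, (∃ x, x ∈ cell μ σ) ↔ ∃ s, a σ s = true) :
    ∃ e : ℕ ≃ Clopens X, Computable₂ fun a b : ℕ => e.symm (e a ⊓ e b) := by
  classical
  let S := (Bool × List Bool) × ℕ
  let nd : S → List Bool := fun s => bif s.1.1 then [] else false :: s.1.2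
  let T : S → Bool := fun s =>
    s.1.1 || (a (false :: s.1.2) s.2.unpair.1 && a (true :: s.1.2) s.2.unpair.2)
  let le : S → S → Bool := fun s t =>
    T s && decide ((nd t).drop ((nd t).length - (nd s).length) = nd s)
  let cyl : S → Clopens X := fun s => bif T s then cell μ (nd s) else ⊥
  have hnd : Primrec nd := Primrec.cond (Primrec.fst.comp Primrec.fst) (Primrec.const [])
    (Primrec.list_cons.comp (Primrec.const false) (Primrec.snd.comp Primrec.fst))
  have hT : Primrec T := Primrec.or.comp (Primrec.fst.comp Primrec.fst) (Primrec.and.comp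
    (ha.comp (Primrec.list_cons.comp (Primrec.const false) (Primrec.snd.comp Primrec.fst))
      (Primrec.fst.comp (Primrec.unpair.comp Primrec.snd)))
    (ha.comp (Primrec.list_cons.comp (Primrec.const true) (Primrec.snd.comp Primrec.fst))
      (Primrec.snd.comp (Primrec.unpair.comp Primrec.snd))))
  have hle : Primrec₂ le := Primrec.and.comp (hT.comp Primrec.fst) (Primrec.eq.decide.comp
    (Primrec.list_drop.comp (Primrec.nat_sub.comp (Primrec.list_length.comp (hnd.comp Primrec.snd))
      (Primrec.list_length.comp (hnd.comp Primrec.fst))) (hnd.comp Primrec.snd))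
    (hnd.comp Primrec.fst))
  have hl : ∀ s t, le s t = true ↔ T s = true ∧ nd s <:+ nd t := fun s t => by
    simp only [le, Bool.and_eq_true, decide_eq_true_eq, List.suffix_iff_eq_drop]
    exact and_congr_right fun _ => eq_comm
  have hc : ∀ x s, x ∈ cyl s ↔ T s = true ∧ x ∈ cell μ (nd s) := fun x s => by
    cases h1 : T s
    · simp only [cyl, h1]
      exact ⟨fun h => h.elim, fun h => by simp at h⟩
    · simp [cyl, h1]
  have hB : ∀ τ n, T ((false, τ), n) = true → Br μ τ := fun τ n h1 => by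
    simp only [T, Bool.false_or, Bool.and_eq_true] at h1
    exact ⟨(h _).2 ⟨_, h1.1⟩, (h _).2 ⟨_, h1.2⟩⟩
  have hX : ∃ x : X, x ∈ cell μ [] := by
    obtain ⟨U, V, hUV⟩ := exists_pair_ne (Clopens X)
    by_contra hn
    exact hUV (SetLike.ext fun x => (hn ⟨x, trivial⟩).elim)
  obtain ⟨e, -, he, -⟩ := Inv.clopens_presentation (O := ∅) hle ((true, []), 0) hT.computableIn cyl
    (fun x => (hc _ _).2 ⟨rfl, trivial⟩)
    (fun x s t hs ht => by
      rw [hc] at hs ht
      rw [hl, hl]
      rcases le_total (nd s).length (nd t).length with h1 | h1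
      · exact .inl ⟨hs.1, cell_chain μ hs.2 ht.2 h1⟩
      · exact .inr ⟨ht.1, cell_chain μ ht.2 hs.2 h1⟩)
    (fun x s t h1 ht => (hc _ _).2 ⟨((hl _ _).1 h1).1,
      cell_down μ ((hl _ _).1 h1).2 ((hc _ _).1 ht).2⟩)
    (fun x s hs => ((hc _ _).1 hs).1)
    (fun s hs => by
      have h1 : ∃ x, x ∈ cell μ (nd s) := by
        obtain ⟨⟨_ | _, σ⟩, n⟩ := s
        · exact (hB σ n hs).1
        · exact hX
      obtain ⟨x, hx, h2⟩ := exists_pt μ h1
      refine ⟨x, fun t => ?_⟩
      rw [hc, hl]
      refine and_congr_right fun ht => ⟨fun h3 => ?_, fun h3 => cell_down μ h3 hx⟩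
      obtain ⟨⟨_ | _, τ⟩, n⟩ := t
      · exact h2 τ (hB τ n ht) h3
      · exact List.nil_suffix)
    (fun x y hxy => eq_of_cells μ hμ fun τ hτ => by
      obtain ⟨s, hs⟩ := (h _).1 hτ.1
      obtain ⟨t, ht⟩ := (h _).1 hτ.2
      have h1 : T ((false, τ), Nat.pair s t) = true := by simp [T, hs, ht]
      have h2 := hxy ((false, τ), Nat.pair s t)
      rw [hc, hc] at h2
      simpa [h1, nd] using h2)
  exact ⟨e, recursiveIn_empty_iff.1 he⟩

end Pool.Agent.P.MP_9f8894_lc.Hg
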