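import Mathlib
import Pool.Agent.P.MP_9f8894_lc.Hg.Diag
import Pool.Agent.P.MP_9f8894_lc.Hg.Overt

/-! A generating family with enumerable inequations gives a computable copy. -/

set_option autoImplicit false
open TopologicalSpace
open scoped Classical

namespace Pool.Agent.P.MP_9f8894_lc.Hg

/-- The code of the term of a cell. -/
def cc (g : ℕ → ℕ) : List Bool → ℕ
  | [] => 1
  | b :: σ => 4 * Nat.pair (cc g σ) (bif b then g σ.length else 4 * g σ.length + 3) + 5

theorem prim_cc {g : ℕ → ℕ} (hg : Primrec g) : Primrec (cc g) := by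
  have hl : Primrec fun p : List Bool × Bool × List Bool × ℕ => g p.2.2.1.length :=
    hg.comp (Primrec.list_length.comp (Primrec.fst.comp (Primrec.snd.comp Primrec.snd)))
  have h := Primrec.list_rec (f := fun σ : List Bool => σ) (g := fun _ => (1 : ℕ))
    (h := fun _ (p : Bool × List Bool × ℕ) =>
      4 * Nat.pair p.2.2 (bif p.1 then g p.2.1.length else 4 * g p.2.1.length + 3) + 5)
    Primrec.id (Primrec.const 1)
    (Primrec.nat_add.comp (Primrec.nat_mul.comp (Primrec.const 4) (Primrec₂.natPair.comp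
      (Primrec.snd.comp (Primrec.snd.comp Primrec.snd))
      (Primrec.cond (Primrec.fst.comp Primrec.snd) hl (Primrec.nat_add.comp
        (Primrec.nat_mul.comp (Primrec.const 4) hl) (Primrec.const 3))))) (Primrec.const 5)).to₂
  refine h.of_eq fun σ => ?_
  induction σ with
  | nil => rfl
  | cons b σ ih => simp only [cc, ← ih]

theorem copy_of_re {X : Type} [TopologicalSpace X] [CompactSpace X] [T2Space X]
    [TotallyDisconnectedSpace X] [Infinite (Clopens X)] (f : ℕ → Option (Clopens X))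
    (hf : ∀ x, ∃ t : Tm, t.val f = some x) (h : REPred fun m => 2 * m + 1 ∈ diag f) :
    ∃ e : ℕ ≃ Clopens X, Computable₂ fun a b : ℕ => e.symm (e a ⊓ e b) := by
  obtain ⟨a, ha⟩ := MP_ef7593_lc.approx_of_re (W := fun m => decide (2 * m + 1 ∈ diag f))
    (h.of_eq fun m => by simp)
  have hlim : ∀ s t : Tm, (∃ k, a k (Nat.pair s.code t.code) = true) ↔
      ∃ x y, s.val f = some x ∧ t.val f = some y ∧ x ≠ y := fun s t => by
    rw [← ha.lim, decide_eq_true_eq, odd_mem]
  let g : ℕ → ℕ := fun n =>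
    bif a n.unpair.2 (Nat.pair n.unpair.1 0) || a n.unpair.2 (Nat.pair n.unpair.1 1)
    then n.unpair.1 else 0
  have hg : Primrec g := by
    have h1 : ∀ i, Primrec fun n : ℕ => a n.unpair.2 (Nat.pair n.unpair.1 i) := fun i =>
      ha.prim.comp (Primrec.snd.comp Primrec.unpair)
        (Primrec₂.natPair.comp (Primrec.fst.comp Primrec.unpair) (Primrec.const i))
    exact Primrec.cond (Primrec.or.comp (h1 0) (h1 1)) (Primrec.fst.comp Primrec.unpair)
      (Primrec.const 0)
  have hdef : ∀ n, ∃ (t : Tm) (x : Clopens X), t.code = g n ∧ t.val f = some x := fun n => by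
    obtain ⟨t, ht⟩ := code_surj n.unpair.1
    cases h1 : a n.unpair.2 (Nat.pair n.unpair.1 0) || a n.unpair.2 (Nat.pair n.unpair.1 1)
    · exact ⟨.bot, ⊥, by simp only [g, h1]; rfl, rfl⟩
    · have h2 : ∃ x, t.val f = some x := by
        rw [Bool.or_eq_true, ← ht] at h1
        rcases h1 with h1 | h1
        · obtain ⟨x, -, hx, -⟩ := (hlim t .bot).1 ⟨_, h1⟩
          exact ⟨x, hx⟩
        · obtain ⟨x, -, hx, -⟩ := (hlim t .top).1 ⟨_, h1⟩
          exact ⟨x, hx⟩
      obtain ⟨x, hx⟩ := h2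
      exact ⟨t, x, by simp only [g, h1, ht]; rfl, hx⟩
  choose tm μ htm hμ using hdef
  have hs : Function.Surjective μ := fun x => by
    obtain ⟨t, ht⟩ := hf x
    have h1 : ∃ k, (a k (Nat.pair t.code 0) || a k (Nat.pair t.code 1)) = true := by
      by_cases hx : x = ⊥
      · obtain ⟨k, hk⟩ := (hlim t .top).2 ⟨x, ⊤, ht, rfl, hx ▸ bot_ne_top⟩
        exact ⟨k, by rw [Bool.or_eq_true]; exact .inr hk⟩
      · obtain ⟨k, hk⟩ := (hlim t .bot).2 ⟨x, ⊥, ht, rfl, hx⟩
        exact ⟨k, by rw [Bool.or_eq_true]; exact .inl hk⟩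
    obtain ⟨k, hk⟩ := h1
    have h2 : tm (Nat.pair t.code k) = t := code_inj _ _ (by
      rw [htm]
      simp only [g, Nat.unpair_pair, hk]
      rfl)
    have h3 := hμ (Nat.pair t.code k)
    rw [h2, ht] at h3
    exact ⟨_, (Option.some.inj h3).symm⟩
  have hcell : ∀ σ, ∃ t : Tm, t.code = cc g σ ∧ t.val f = some (cell μ σ) := fun σ => by
    induction σ with
    | nil => exact ⟨.top, rfl, rfl⟩
    | cons b σ ih =>
      obtain ⟨t, h1, h2⟩ := ih
      cases b
      · exact ⟨.inf t (.cpl (tm σ.length)), by simp [Tm.code, cc, h1, htm],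
          by simp [Tm.val, cell, h2, hμ]⟩
      · exact ⟨.inf t (tm σ.length), by simp [Tm.code, cc, h1, htm],
          by simp [Tm.val, cell, h2, hμ]⟩
  refine overt μ hs (a := fun σ k => a k (Nat.pair (cc g σ) 0))
    (ha.prim.comp Primrec.snd (Primrec₂.natPair.comp ((prim_cc hg).comp Primrec.fst)
      (Primrec.const 0))).to₂ fun σ => ?_
  obtain ⟨t, h1, h2⟩ := hcell σ
  rw [← h1]
  refine Iff.trans ?_ (hlim t .bot).symm
  constructor
  · rintro ⟨x, hx⟩
    refine ⟨_, ⊥, h2, rfl, fun h3 => ?_⟩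
    rw [h3] at hx
    exact hx
  · rintro ⟨x, y, h3, h4, h5⟩
    rw [h2] at h3
    by_contra hn
    refine h5 ?_
    rw [← Option.some.inj h3, ← Option.some.inj h4]
    exact SetLike.ext fun z => ⟨fun hz => (hn ⟨z, hz⟩).elim, fun hz => hz.elim⟩

end Pool.Agent.P.MP_9f8894_lc.Hg
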